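import Pool.Agent.N17.CK.Stm

/-!
# Project CK (helper17), leaf BD (helper574): bounds of coefficients and discriminants by the roots
-/

set_option autoImplicit false

open Polynomial Filter

namespace Pool.Agent.N17.CK

open Pool.Agent.N17.HC Pool.Agent.N17.HC.FIN

namespace BD

theorem c3 {R : Type*} [CommRing R] (a b c : R) : (P3 a b c).coeff 3 = 1 := by
  unfold P3
  simp [coeff_X_pow]

theorem c2 {R : Type*} [CommRing R] (u v : R) : (P2 u v).coeff 2 = 1 ∧
    (P2 u v).coeff 1 = -u ∧ (P2 u v).coeff 0 = v := by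
  unfold P2
  refine ⟨?_, ?_, ?_⟩ <;> simp [coeff_X, coeff_X_pow, coeff_C]

theorem absc (n : ℤ) : |((n : ℤ) : ℝ)| = ‖(n : ℂ)‖ := (Complex.norm_intCast n).symm

theorem monic3 (a b c : ℤ) : (P3 a b c).Monic ∧ (P3 a b c).natDegree = 3 := by
  have h : (P3 a b c).natDegree = 3 := by
    unfold P3
    compute_degree!
  refine ⟨?_, h⟩
  rw [Monic, leadingCoeff, h]
  exact c3 a b c

theorem monic2 (u v : ℤ) : (P2 u v).Monic ∧ (P2 u v).natDegree = 2 := by
  have h : (P2 u v).natDegree = 2 := by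
    unfold P2
    compute_degree!
  refine ⟨?_, h⟩
  rw [Monic, leadingCoeff, h]
  exact (c2 u v).1

theorem split (P : ℤ[X]) (hP : P.Monic) :
    P.map (Int.castRingHom ℂ) = ((rootsOf P).map fun x => X - C x).prod := by
  have h1 := (IsAlgClosed.splits (P.map (Int.castRingHom ℂ))).eq_prod_roots_of_monic (hP.map _)
  exact h1

theorem three (a b c : ℤ) : ∃ x y z : ℂ, rootsOf (P3 a b c) = {x, y, z} ∧
    (a : ℂ) = x + y + z ∧ (b : ℂ) = x * y + y * z + z * x ∧ (c : ℂ) = x * y * z := by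
  obtain ⟨hm, hd⟩ := monic3 a b c
  have hc := card_rootsOf (P3 a b c)
  rw [hd, Multiset.card_eq_three] at hc
  obtain ⟨x, y, z, hxyz⟩ := hc
  refine ⟨x, y, z, hxyz, ?_⟩
  have h1 := split _ hm
  rw [hxyz, map3] at h1
  have h2 : (Multiset.map (fun x => X - C x) ({x, y, z} : Multiset ℂ)).prod =
      P3 (x + y + z) (x * y + y * z + z * x) (x * y * z) := by
    have h3 := prod3 (![x, y, z] : Fin 3 → ℂ)
    rw [Fin.prod_univ_three] at h3
    simp only [Matrix.cons_val_zero, Matrix.cons_val_one, Matrix.cons_val] at h3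
    rw [← h3]
    simp [mul_assoc]
  rw [h2] at h1
  obtain ⟨k1, k2, k3⟩ := inj3 h1
  simp only [eq_intCast] at k1 k2 k3
  exact ⟨k1, k2, k3⟩

theorem two (u v : ℤ) : ∃ x y : ℂ, rootsOf (P2 u v) = {x, y} ∧
    (u : ℂ) = x + y ∧ (v : ℂ) = x * y := by
  obtain ⟨hm, hd⟩ := monic2 u v
  have hc := card_rootsOf (P2 u v)
  rw [hd, Multiset.card_eq_two] at hc
  obtain ⟨x, y, hxy⟩ := hc
  refine ⟨x, y, hxy, ?_⟩
  have h1 := split _ hm
  rw [hxy] at h1
  have h2 : (Multiset.map (fun x => X - C x) ({x, y} : Multiset ℂ)).prod =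
      P2 (x + y) (x * y) := by
    unfold P2
    simp only [Multiset.insert_eq_cons, Multiset.map_cons, Multiset.map_singleton,
      Multiset.prod_cons, Multiset.prod_singleton, map_add, map_mul]
    ring
  have h3 : (P2 u v).map (Int.castRingHom ℂ) = P2 (u : ℂ) (v : ℂ) := by
    unfold P2
    simp
  rw [h2, h3] at h1
  obtain ⟨-, k1, k2⟩ := c2 (u : ℂ) (v : ℂ)
  obtain ⟨-, l1, l2⟩ := c2 (x + y) (x * y)
  rw [h1] at k1 k2
  exact ⟨neg_injective (k1.symm.trans l1), k2.symm.trans l2⟩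

theorem nrm {x : ℂ} {E : ℝ} (h : ‖x - 1‖ ≤ E) : ‖x‖ ≤ E + 1 := by
  have h1 : ‖x‖ ≤ ‖x - 1‖ + ‖(1 : ℂ)‖ := by
    have := norm_add_le (x - 1) 1
    rwa [sub_add_cancel] at this
  rw [norm_one] at h1
  linarith

theorem dif {x y : ℂ} {E : ℝ} (h : ‖x - 1‖ ≤ E) (h' : ‖y - 1‖ ≤ E) : ‖x - y‖ ≤ 2 * E := by
  have h1 : ‖x - y‖ ≤ ‖x - 1‖ + ‖y - 1‖ := by
    have := norm_sub_le (x - 1) (y - 1)
    rwa [sub_sub_sub_cancel_right] at this
  linarith

end BD

open BD in
theorem t_BD : S_BD := by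
  refine ⟨?_, ?_, ?_⟩
  · intro a b c E hE h
    obtain ⟨x, y, z, hr, ha, hb, hc⟩ := three a b c
    rw [hr] at h
    have hx := h x (by simp)
    have hy := h y (by simp)
    have hz := h z (by simp)
    have nx := nrm hx
    have ny := nrm hy
    have nz := nrm hz
    have hE1 : 0 ≤ E + 1 := by linarith
    have key : ∀ p q : ℂ, ‖p‖ ≤ E + 1 → ‖q‖ ≤ E + 1 → ‖p * q‖ ≤ (E + 1) ^ 2 := by
      intro p q hp hq
      rw [norm_mul, pow_two]
      exact mul_le_mul hp hq (norm_nonneg _) hE1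
    refine ⟨?_, ?_, ?_, ?_⟩
    · rw [absc, ha]
      exact (norm_add₃_le).trans (by linarith)
    · rw [absc, hb]
      exact (norm_add₃_le).trans (by linarith [key x y nx ny, key y z ny nz, key z x nz nx])
    · rw [absc, hc, norm_mul, pow_succ]
      exact mul_le_mul (key x y nx ny) nz (norm_nonneg _) (by positivity)
    · have hdd : ((disc3 a b c : ℤ) : ℂ) = ((x - y) * (y - z) * (z - x)) ^ 2 := by
        unfold disc3
        push_cast
        rw [ha, hb, hc]
        ring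
      rw [absc, hdd, norm_pow, norm_mul, norm_mul]
      have d1 := dif hx hy
      have d2 := dif hy hz
      have d3 := dif hz hx
      have hE2 : 0 ≤ 2 * E := by linarith
      have e1 : ‖x - y‖ * ‖y - z‖ * ‖z - x‖ ≤ 2 * E * (2 * E) * (2 * E) :=
        mul_le_mul (mul_le_mul d1 d2 (norm_nonneg _) hE2) d3 (norm_nonneg _) (by positivity)
      calc (‖x - y‖ * ‖y - z‖ * ‖z - x‖) ^ 2 ≤ (2 * E * (2 * E) * (2 * E)) ^ 2 :=
            pow_le_pow_left₀ (by positivity) e1 2
        _ = 64 * E ^ 6 := by ring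
  · intro u v E hE h
    obtain ⟨x, y, hr, hu, hv⟩ := two u v
    rw [hr] at h
    have hx := h x (by simp)
    have hy := h y (by simp)
    have e1 : (((u : ℝ) ^ 2 - 4 * v : ℝ) : ℂ) = (x - y) ^ 2 := by
      push_cast
      rw [hu, hv]
      ring
    rw [← Real.norm_eq_abs, ← Complex.norm_real, e1, norm_pow]
    calc ‖x - y‖ ^ 2 ≤ (2 * E) ^ 2 := pow_le_pow_left₀ (norm_nonneg _) (dif hx hy) 2
      _ = 4 * E ^ 2 := by ring
  · intro r P E hP hr hE h
    have h1 := prod_rootsOf P hP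
    have h2 : ‖(rootsOf P).prod‖ = |((P.coeff 0 : ℤ) : ℝ)| := by
      rw [h1]
      push_cast
      rw [norm_mul, norm_pow, norm_neg, norm_one, one_pow, one_mul, absc]
    rw [← h2, ← hr, ← card_rootsOf]
    have h3 : ∀ s : Multiset ℂ, (∀ β ∈ s, ‖β - 1‖ ≤ E) → ‖s.prod‖ ≤ (E + 1) ^ Multiset.card s := by
      intro s
      induction s using Multiset.induction_on with
      | empty => intro _; simp
      | cons x s ih =>
        intro hs
        rw [Multiset.prod_cons, Multiset.card_cons, norm_mul, pow_succ']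
        exact mul_le_mul (nrm (hs x (Multiset.mem_cons_self x s)))
          (ih fun β hβ => hs β (Multiset.mem_cons_of_mem hβ)) (norm_nonneg _) (by linarith)
    exact h3 _ h

end Pool.Agent.N17.CK
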