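import Pool.Agent.N17.CK.Stm

/-!
# Project CK: the final theorem from the statements ROOT, BD, SPL, POS, END and the project HC
-/

set_option autoImplicit false

open Polynomial Filter

namespace Pool.Agent.N17.CK

open Pool.Agent.N17.HC Pool.Agent.N17.HC.FIN

namespace MAIN

/-- the first Chern class of `N_X(-1)` -/
theorem chern_one (r : ℕ) (hr : 1 ≤ r) (P : ℤ[X]) (hP : P.Monic) (h : P.natDegree = r) :
    chern r P 1 = - P.coeff (r - 1) - r := by
  have h1 : (P.comp (X + 1)).coeff (r - 1) = P.coeff (r - 1) + r := by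
    have e : P.comp (X + 1) = ∑ i ∈ Finset.range (r + 1), C (P.coeff i) * (X + 1) ^ i := by
      rw [Polynomial.comp_eq_sum_left, Polynomial.sum_over_range _ (fun n => by simp), h]
    rw [e, Polynomial.finsetSum_coeff]
    simp only [coeff_C_mul, coeff_X_add_one_pow]
    obtain ⟨m, rfl⟩ : ∃ m, r = m + 1 := ⟨r - 1, by omega⟩
    have hc : P.coeff (m + 1) = 1 := by rw [← h]; exact hP.coeff_natDegree
    rw [Finset.sum_range_succ, Finset.sum_range_succ, Finset.sum_eq_zero, hc]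
    · simp
    · intro i hi
      rw [Finset.mem_range] at hi
      rw [Nat.choose_eq_zero_of_lt (by omega)]
      simp
  unfold chern
  rw [h1]
  ring

theorem rootsOf_sub {P Q : ℤ[X]} (hP : P.Monic) (h : Q ∣ P) :
    ∀ β ∈ rootsOf Q, β ∈ rootsOf P := by
  intro β hβ
  unfold rootsOf at *
  exact Multiset.mem_of_le (Polynomial.roots.le_of_dvd (hP.map _).ne_zero (Polynomial.map_dvd _ h))
    hβ

theorem form2 (P : ℤ[X]) (hP : P.Monic) (h : P.natDegree = 2) :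
    P = P2 (-P.coeff 1) (P.coeff 0) := by
  have h3 : P.coeff 2 = 1 := by rw [← h]; exact hP.coeff_natDegree
  unfold P2
  conv_lhs => rw [P.as_sum_range_C_mul_X_pow, h]
  simp only [Finset.sum_range_succ, Finset.sum_range_zero, h3, map_neg]
  simp only [map_one]
  ring

theorem not_irr (x : ℤ) (R : ℤ[X]) (_hR : R.Monic) (hd : R.natDegree ≠ 0) :
    ¬ Irreducible ((X - C x) * R) := by
  intro h
  rcases h.isUnit_or_isUnit rfl with h1 | h1
  · exact Polynomial.not_isUnit_X_sub_C x h1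
  · exact hd (Polynomial.natDegree_eq_zero_of_isUnit h1)

theorem irr_two (u v : ℤ) (h : IsSquare (u ^ 2 - 4 * v)) : ¬ Irreducible (P2 u v) := by
  obtain ⟨s, hs⟩ := h
  have h2 : (2 : ℤ) ∣ u + s := by
    have h3 : (2 : ℤ) ∣ (u + s) * (u - s) := ⟨2 * v, by linear_combination hs⟩
    rcases Int.prime_two.dvd_or_dvd h3 with h4 | h4
    · exact h4
    · obtain ⟨t, ht⟩ := h4
      exact ⟨t + s, by linarith⟩
  obtain ⟨x, hx⟩ := h2
  have e1 : u = x + (u - x) := by ring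
  have e2 : v = x * (u - x) := by
    have : s = 2 * x - u := by linarith
    rw [this] at hs
    linarith
  have e : P2 u v = (X - C x) * (X - C (u - x)) := by
    unfold P2
    conv_lhs => rw [e2]
    simp only [map_mul, map_sub]
    ring
  rw [e]
  refine not_irr x _ (monic_X_sub_C _) ?_
  rw [natDegree_X_sub_C]
  norm_num

theorem irr_three (a b c x y z : ℤ) (h1 : a = x + y + z) (h2 : b = x * y + y * z + z * x)
    (h3 : c = x * y * z) : ¬ Irreducible (P3 a b c) := by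
  have e : P3 a b c = (X - C x) * ((X - C y) * (X - C z)) := by
    unfold P3
    rw [h1, h2, h3]
    simp only [map_add, map_mul]
    ring
  rw [e]
  refine not_irr x _ ((monic_X_sub_C _).mul (monic_X_sub_C _)) ?_
  rw [natDegree_mul (X_sub_C_ne_zero _) (X_sub_C_ne_zero _), natDegree_X_sub_C,
    natDegree_X_sub_C]
  norm_num

end MAIN

open MAIN in
/-- the final theorem -/
theorem final (hK : S_KOS) (hL : S_LSP) (hC : S_CUB) (hM : S_M2) (hR : S_ROOT) (hB : S_BD)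
    (hS : S_SPL) (hPos : S_POS) (hE : S_END) (r : ℕ) (hr : 1 ≤ r) (ε : ℝ) (hε : 0 < ε) :
    ∃ N₀ : ℕ, ∀ N : ℕ, N₀ ≤ N → ∀ P : ℤ[X], P.Monic → P.natDegree = r →
    (∀ i ≤ r, 0 ≤ chern r P i) →
    (∀ i < r, chern r P (i + 1) ≤ chern r P 1 * chern r P i) →
    (∀ t : ℤ, ∃ z : ℤ, kos N (rootsOf P) (N + t) = z) →
    (∀ t : ℤ, ∃ z : ℤ, ((rootsOf P).map fun b => kos N (rootsOf P) (N + t - b)).sum = z) →
    ∀ k : ℤ, P.coeff (r - 1) = - (k + N + 1) →
    (k : ℝ) ≤ (N : ℝ) ^ (2 * Real.exp (1 / 2) / 3 - ε) →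
    (∀ Q : ℤ[X], Q.Monic → Irreducible Q → Q ∣ P → Q.natDegree ≤ 3 →
      ∃ a : ℤ, 1 ≤ a ∧ Q = X - C a) ∧
    (r ≤ 3 → ∃ a : Fin r → ℤ, (∀ i, 1 ≤ a i) ∧ P = ∏ i, (X - C (a i))) := by
  have hE1 := exp_lb
  have hE2 := exp_ub
  obtain ⟨δ, hδ0, hδ1, hδε⟩ : ∃ δ : ℝ, 0 < δ ∧ δ ≤ 6 / 100 ∧ δ ≤ ε :=
    ⟨min ε (6 / 100), lt_min hε (by norm_num), min_le_right _ _, min_le_left _ _⟩
  set θ : ℝ := 2 * Real.exp (1 / 2) / 3 - δ with hθ
  have hθ1 : 1 ≤ θ := by rw [hθ]; linarith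
  have hθ2 : θ ≤ 2 := by rw [hθ]; linarith
  set A : ℝ := 2 * r + 7 with hA
  have ev := (hC r A δ hδ0).and ((hM r A δ hδ0).and
    ((transfer (4 * Real.exp (1 / 2)) (6 * δ) δ (64 * 6 ^ 6) (by linarith) (by linarith)).and
    ((transfer (4 * Real.exp (1 / 2)) (4 * Real.exp (1 / 2) - 2 * θ) δ 144
      (by linarith) (by linarith)).and
    ((transfer A 7 0 (7 ^ r) (by rw [hA]; linarith [(Nat.cast_nonneg r : (0 : ℝ) ≤ r)])
      (by norm_num)).and
    ((transfer A (2 * r + 1) 0 (3 * 7 ^ 3) (by rw [hA]; linarith [(Nat.cast_nonneg r : (0 : ℝ) ≤ r)])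
      (by linarith [(Nat.cast_nonneg r : (0 : ℝ) ≤ r)])).and
    (eventually_ge_atTop 1))))))
  obtain ⟨y₀, hy₀⟩ := eventually_atTop.1 ev
  refine ⟨y₀ + 4 * r + 1, fun N hN P hP hrP hpos hsch h1 h2 k hk hkN => ?_⟩
  obtain ⟨q1, q2, q3, q4, q5, q6, q7⟩ := hy₀ (N + 1 - 2 * r) (by omega)
  set y := N + 1 - 2 * r with hy
  have hNy : N ≤ 2 * y := by omega
  have hN1 : (1 : ℝ) ≤ N := by
    have : 1 ≤ N := by omega
    exact_mod_cast this
  -- the first Chern class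
  have hc1 := chern_one r hr P hP hrP
  rw [hk] at hc1
  have he1 := hpos 1 hr
  set E : ℝ := 2 * ((chern r P 1 : ℤ) : ℝ) with hEdef
  have hE0 : 0 ≤ E := by
    have : (0 : ℝ) ≤ ((chern r P 1 : ℤ) : ℝ) := by exact_mod_cast he1
    linarith
  have hNθ : (N : ℝ) ≤ (N : ℝ) ^ θ := by
    calc (N : ℝ) = (N : ℝ) ^ (1 : ℝ) := (Real.rpow_one _).symm
      _ ≤ (N : ℝ) ^ θ := Real.rpow_le_rpow_of_exponent_le hN1 hθ1
  have hNθ2 : (N : ℝ) ^ θ ≤ (N : ℝ) ^ (2 : ℝ) := Real.rpow_le_rpow_of_exponent_le hN1 hθ2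
  have hkθ : (k : ℝ) ≤ (N : ℝ) ^ θ :=
    hkN.trans (Real.rpow_le_rpow_of_exponent_le hN1 (by rw [hθ]; linarith))
  have hE6 : E ≤ 6 * (N : ℝ) ^ θ := by
    have h3 : ((chern r P 1 : ℤ) : ℝ) = k + N + 1 - r := by
      rw [hc1]
      push_cast
      ring
    have h4 : (0 : ℝ) ≤ r := Nat.cast_nonneg r
    rw [hEdef, h3]
    linarith
  have hE7 : E + 1 ≤ 7 * (N : ℝ) ^ θ := by linarith
  have hNθ0 : 0 ≤ (N : ℝ) ^ θ := by positivity
  have hroot : ∀ β ∈ rootsOf P, ‖β - 1‖ ≤ E := hR r P hP hrP hpos hsch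
  obtain ⟨hd1, hposl⟩ := hPos r P hP hrP hpos
  set d : ℤ := (-1) ^ r * P.coeff 0 with hd
  have hd0 : d ≠ 0 := by omega
  have hdA : |((d : ℤ) : ℝ)| ≤ (y : ℝ) ^ A := by
    have h3 := hB.2.2 r P E hP hrP hE0 hroot
    have h4 : |((d : ℤ) : ℝ)| = |((P.coeff 0 : ℤ) : ℝ)| := by
      rw [hd]
      push_cast
      rw [abs_mul, abs_pow, abs_neg, abs_one, one_pow, one_mul]
    rw [h4]
    refine h3.trans ?_
    have h5 := q5 N hNy
    rw [sub_zero, hA, show (2 * (r : ℝ) + 7 - 7) = 2 * r by ring, ← hA] at h5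
    refine le_trans ?_ h5
    calc (E + 1) ^ r ≤ (7 * (N : ℝ) ^ (2 : ℝ)) ^ r :=
          pow_le_pow_left₀ (by linarith) (hE7.trans (by linarith)) r
      _ = 7 ^ r * (N : ℝ) ^ (2 * (r : ℝ)) := by
          rw [mul_pow, ← Real.rpow_natCast ((N : ℝ) ^ (2 : ℝ)), ← Real.rpow_mul (by linarith)]
  have hlocal : ∀ p : ℕ, p.Prime → r < p → p ≤ y → ¬ (p : ℤ) ∣ d →
      ∃ x : Fin r → ZMod p, P.map (Int.castRingHom (ZMod p)) = ∏ i, (X - C (x i)) :=
    fun p hp hrp hpy hpd => loc hK hL N r P hP hrP d hd.symm h1 h2 p hp hrp (by omega) hpd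
  have hmain : ∀ Q : ℤ[X], Q.Monic → Irreducible Q → Q ∣ P → Q.natDegree ≤ 3 →
      ∃ a : ℤ, 1 ≤ a ∧ Q = X - C a := by
    intro Q hQ hirr hQP hQ3
    have hrootQ : ∀ β ∈ rootsOf Q, ‖β - 1‖ ≤ E := fun β hβ => hroot β (rootsOf_sub hP hQP β hβ)
    have hcases : Q.natDegree = 0 ∨ Q.natDegree = 1 ∨ Q.natDegree = 2 ∨ Q.natDegree = 3 := by
      omega
    rcases hcases with h0 | h0 | h0 | h0
    · exact absurd (hQ.natDegree_eq_zero.1 h0) hirr.ne_one
    · have hQ1 : Q = X - C (- Q.coeff 0) := by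
        rw [map_neg, sub_neg_eq_add]
        have := eq_X_add_C_of_natDegree_le_one h0.le
        rw [show Q.coeff 1 = 1 by rw [← h0]; exact hQ.coeff_natDegree, C_1, one_mul] at this
        exact this
      exact ⟨_, hposl _ (hQ1 ▸ hQP), hQ1⟩
    · exfalso
      have hQ2 := form2 Q hQ h0
      set u := - Q.coeff 1
      set v := Q.coeff 0
      have hb := hB.2.1 u v E hE0 (hQ2 ▸ hrootQ)
      refine irr_two u v (q2 (u ^ 2 - 4 * v) d hd0 hdA ?_ ?_) (hQ2 ▸ hirr)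
      · have h3 := q4 N hNy
        rw [sub_sub_cancel] at h3
        push_cast
        refine (hb.trans ?_).trans h3
        calc 4 * E ^ 2 ≤ 4 * (6 * (N : ℝ) ^ θ) ^ 2 := by gcongr
          _ = 144 * (N : ℝ) ^ (2 * θ) := by
              rw [mul_pow, ← Real.rpow_natCast ((N : ℝ) ^ θ), ← Real.rpow_mul (by linarith)]
              push_cast
              ring_nf
      · intro p hp hrp hpy hpd
        exact (hS p r P Q hp hP hQ hQP (hlocal p hp hrp hpy hpd)).2 u v hQ2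
    · exfalso
      have hQ3' := form3 Q hQ h0
      set a := - Q.coeff 2
      set b := Q.coeff 1
      set c := - Q.coeff 0
      obtain ⟨b1, b2, b3, b4⟩ := hB.1 a b c E hE0 (hQ3' ▸ hrootQ)
      have hbig : 3 * (E + 1) ^ 3 ≤ (y : ℝ) ^ A := by
        have h5 := q6 N hNy
        rw [sub_zero, hA, show (2 * (r : ℝ) + 7 - (2 * r + 1)) = 6 by ring, ← hA] at h5
        refine le_trans ?_ h5
        calc 3 * (E + 1) ^ 3 ≤ 3 * (7 * (N : ℝ) ^ (2 : ℝ)) ^ 3 := by
              have := pow_le_pow_left₀ (by linarith) (hE7.trans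
                (by linarith : 7 * (N : ℝ) ^ θ ≤ 7 * (N : ℝ) ^ (2 : ℝ))) 3
              linarith
          _ = 3 * 7 ^ 3 * (N : ℝ) ^ (6 : ℝ) := by
              rw [mul_pow, ← Real.rpow_natCast ((N : ℝ) ^ (2 : ℝ)), ← Real.rpow_mul (by linarith)]
              norm_num
              ring
      have hE1' : 1 ≤ E + 1 := by linarith
      have c1 : 3 * (E + 1) ≤ 3 * (E + 1) ^ 3 := by
        have := pow_le_pow_right₀ hE1' (show 1 ≤ 3 by norm_num)
        rw [pow_one] at this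
        linarith
      have c2 : 3 * (E + 1) ^ 2 ≤ 3 * (E + 1) ^ 3 := by
        have := pow_le_pow_right₀ hE1' (show 2 ≤ 3 by norm_num)
        linarith
      have c3 : (E + 1) ^ 3 ≤ 3 * (E + 1) ^ 3 := by
        have : 0 ≤ (E + 1) ^ 3 := by positivity
        linarith
      obtain ⟨x, y', z, g1, g2, g3⟩ := q1 a b c d hd0 hdA ((b1.trans c1).trans hbig)
        ((b2.trans c2).trans hbig) ((b3.trans c3).trans hbig) (by
          have h3 := q3 N hNy
          refine (b4.trans ?_).trans h3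
          calc 64 * E ^ 6 ≤ 64 * (6 * (N : ℝ) ^ θ) ^ 6 := by gcongr
            _ = 64 * 6 ^ 6 * (N : ℝ) ^ (4 * Real.exp (1 / 2) - 6 * δ) := by
                rw [mul_pow, ← Real.rpow_natCast ((N : ℝ) ^ θ), ← Real.rpow_mul (by linarith),
                  show θ * ((6 : ℕ) : ℝ) = 4 * Real.exp (1 / 2) - 6 * δ by
                    rw [hθ]; push_cast; ring]
                ring)
        (fun p hp hrp hpy hpd => (hS p r P Q hp hP hQ hQP (hlocal p hp hrp hpy hpd)).1 a b c hQ3')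
      exact irr_three a b c x y' z g1 g2 g3 (hQ3' ▸ hirr)
  refine ⟨hmain, fun hr3 => hE r P hP hrP fun Q hQ hirr hQP => hmain Q hQ hirr hQP ?_⟩
  exact (natDegree_le_of_dvd hQP hP.ne_zero).trans (by omega)

end Pool.Agent.N17.CK
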