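import Pool.Agent.N17.CK.Stm

/-!
# Project CK: positivity and products of linear factors (helper37)
-/

set_option autoImplicit false

open Polynomial

namespace Pool.Agent.N17.CK

namespace POSEND

theorem natDegree_R {r : ℕ} {P : ℤ[X]} (hd : P.natDegree = r) :
    (P.comp (X + 1)).natDegree = r := by
  have h : (X + 1 : ℤ[X]).natDegree = 1 := by
    rw [show (X + 1 : ℤ[X]) = X + C 1 by simp]
    exact natDegree_X_add_C 1
  rw [natDegree_comp, h, mul_one, hd]

theorem monic_R {P : ℤ[X]} (hm : P.Monic) : (P.comp (X + 1)).Monic := by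
  rw [show (X + 1 : ℤ[X]) = X + C 1 by simp]
  exact hm.comp_X_add_C 1

/-- the signed value at a negative integer -/
theorem eval_neg {r : ℕ} {P : ℤ[X]} (hm : P.Monic) (hd : P.natDegree = r)
    (h : ∀ i ≤ r, 0 ≤ chern r P i) (s : ℕ) :
    (s : ℤ) ^ r ≤ (-1) ^ r * (P.comp (X + 1)).eval (-(s : ℤ)) := by
  rw [eval_eq_sum_range, natDegree_R hd, Finset.mul_sum, Finset.sum_range_succ]
  have h1 : (P.comp (X + 1)).coeff r = 1 := by
    have := (monic_R hm).coeff_natDegree
    rwa [natDegree_R hd] at this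
  have h2 : (-1 : ℤ) ^ r * ((P.comp (X + 1)).coeff r * (-(s : ℤ)) ^ r) = (s : ℤ) ^ r := by
    rw [h1, one_mul, ← mul_pow]
    congr 1
    ring
  rw [h2]
  have h3 : 0 ≤ ∑ x ∈ Finset.range r, (-1 : ℤ) ^ r * ((P.comp (X + 1)).coeff x * (-(s : ℤ)) ^ x) := by
    refine Finset.sum_nonneg fun j hj => ?_
    rw [Finset.mem_range] at hj
    have h4 := h (r - j) (Nat.sub_le _ _)
    unfold chern at h4
    rw [Nat.sub_sub_self hj.le] at h4
    have h5 : (-1 : ℤ) ^ r * ((P.comp (X + 1)).coeff j * (-(s : ℤ)) ^ j) =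
        ((-1) ^ (r - j) * (P.comp (X + 1)).coeff j) * (s : ℤ) ^ j := by
      have h6 : (-1 : ℤ) ^ r = (-1) ^ (r - j) * (-1) ^ j := by
        rw [← pow_add, Nat.sub_add_cancel hj.le]
      have h7 : (-(s : ℤ)) ^ j = (-1) ^ j * (s : ℤ) ^ j := by
        rw [← mul_pow]
        congr 1
        ring
      have h8 : (-1 : ℤ) ^ j * (-1) ^ j = 1 := by
        rw [← mul_pow]
        norm_num
      rw [h6, h7]
      linear_combination ((-1) ^ (r - j) * (P.comp (X + 1)).coeff j * (s : ℤ) ^ j) * h8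
    rw [h5]
    positivity
  linarith

end POSEND

open POSEND in
theorem t_POS : S_POS := by
  intro r P hm hd h
  constructor
  · have h1 := eval_neg hm hd h 1
    rw [eval_comp] at h1
    simp only [Nat.cast_one, one_pow, eval_add, eval_X, eval_one, neg_add_cancel] at h1
    rwa [coeff_zero_eq_eval_zero]
  · intro a ha
    by_contra hlt
    push Not at hlt
    obtain ⟨s, hs⟩ : ∃ s : ℕ, (s : ℤ) = 1 - a := ⟨(1 - a).toNat, by omega⟩
    have h1 := eval_neg hm hd h s
    rw [eval_comp] at h1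
    have h2 : eval (-(s : ℤ)) (X + 1 : ℤ[X]) = a := by
      simp only [eval_add, eval_X, eval_one]
      omega
    rw [h2, (dvd_iff_isRoot.1 ha).eq_zero, mul_zero] at h1
    have h3 : 0 < (s : ℤ) ^ r := pow_pos (by omega) _
    omega

open POSEND in
theorem t_END : S_END := by
  intro r
  induction r with
  | zero =>
    intro P hm hd _
    refine ⟨fun i => i.elim0, fun i => i.elim0, ?_⟩
    rw [Fin.prod_univ_zero]
    exact eq_one_of_monic_natDegree_zero hm hd
  | succ r ih =>
    intro P hm hd h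
    have hnu : ¬ IsUnit P := by
      intro hu
      have := natDegree_eq_zero_of_isUnit hu
      omega
    obtain ⟨q, hq, hqP⟩ := WfDvdMonoid.exists_irreducible_factor hnu hm.ne_zero
    obtain ⟨w, hw⟩ := hqP
    have hlc : q.leadingCoeff * w.leadingCoeff = 1 := by
      rw [← leadingCoeff_mul, ← hw]
      exact hm
    have hu : IsUnit q.leadingCoeff := IsUnit.of_mul_eq_one _ hlc
    obtain ⟨Q, hQm, hQi, hQP⟩ : ∃ Q : ℤ[X], Q.Monic ∧ Irreducible Q ∧ Q ∣ P := by
      rcases Int.isUnit_iff.1 hu with h1 | h1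
      · exact ⟨q, h1, hq, w, hw⟩
      · refine ⟨-q, ?_, (Associated.irreducible_iff (Associated.neg_right (Associated.refl q))).1 hq, ⟨-w, by rw [hw]; ring⟩⟩
        rw [Monic, leadingCoeff_neg, h1]
        norm_num
    obtain ⟨a, ha, rfl⟩ := h Q hQm hQi hQP
    obtain ⟨P', rfl⟩ := hQP
    have hm' : P'.Monic := (monic_X_sub_C a).of_mul_monic_left hm
    have hd' : P'.natDegree = r := by
      rw [(monic_X_sub_C a).natDegree_mul hm', natDegree_X_sub_C] at hd
      omega
    obtain ⟨b, hb, hb'⟩ := ih P' hm' hd' fun Q h1 h2 h3 => h Q h1 h2 (h3.mul_left _)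
    refine ⟨Fin.cons a b, fun i => ?_, ?_⟩
    · refine Fin.cases ?_ (fun j => ?_) i
      · rw [Fin.cons_zero]
        exact ha
      · rw [Fin.cons_succ]
        exact hb j
    · rw [Fin.prod_univ_succ, Fin.cons_zero, hb']
      simp only [Fin.cons_succ]

end Pool.Agent.N17.CK
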