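import Pool.Agent.N17.CK.Stm

/-!
# Project CK, ROOT: bound of the Chern roots (helper744)
-/

set_option autoImplicit false

open Polynomial Filter

namespace Pool.Agent.N17.CK

open Pool.Agent.N17.HC Pool.Agent.N17.HC.FIN

namespace ROOT

theorem geo (r : ℕ) : ∑ j ∈ Finset.range r, ((1 : ℝ) / 2) ^ (r - j) = 1 - (1 / 2) ^ r := by
  have h : ∑ j ∈ Finset.range r, ((1 : ℝ) / 2) ^ (r - j) =
      ∑ j ∈ Finset.range r, ((1 : ℝ) / 2) ^ (j + 1) := by
    rw [← Finset.sum_range_reflect (fun j => ((1 : ℝ) / 2) ^ (j + 1)) r]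
    refine Finset.sum_congr rfl fun j hj => ?_
    have := Finset.mem_range.1 hj
    congr 1
    omega
  rw [h]
  clear h
  induction r with
  | zero => simp
  | succ n ih =>
    rw [Finset.sum_range_succ, ih]
    ring

end ROOT

open ROOT in
theorem t_ROOT : S_ROOT := by
  intro r P hP hr h0 h1 β hβ
  rcases Nat.eq_zero_or_pos r with rfl | hr0
  · exfalso
    have hP1 : P = 1 := (Polynomial.Monic.natDegree_eq_zero hP).1 hr
    subst hP1
    simp [rootsOf] at hβ
  set R : ℤ[X] := P.comp (X + 1) with hR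
  have hX : (X + 1 : ℤ[X]) = X + C 1 := by simp
  have hRm : R.Monic := by
    rw [hR, hX]
    exact hP.comp_X_add_C 1
  have hRd : R.natDegree = r := by
    rw [hR, hX, Polynomial.natDegree_comp, Polynomial.natDegree_X_add_C, mul_one, hr]
  set e : ℕ → ℤ := fun i => chern r P i with he
  have hech : ∀ i, e i = (-1) ^ i * R.coeff (r - i) := fun i => rfl
  have he0 : e 0 = 1 := by
    rw [hech]
    simp only [pow_zero, one_mul, Nat.sub_zero]
    rw [← hRd]
    exact hRm.coeff_natDegree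
  have hpos : ∀ i ≤ r, 0 ≤ e i := h0
  have hE : 0 ≤ e 1 := hpos 1 hr0
  have hpow : ∀ i ≤ r, e i ≤ (e 1) ^ i := by
    intro i
    induction i with
    | zero => intro _; simp [he0]
    | succ n ih =>
      intro hn
      calc e (n + 1) ≤ e 1 * e n := h1 n (by omega)
        _ ≤ e 1 * (e 1) ^ n := mul_le_mul_of_nonneg_left (ih (by omega)) hE
        _ = (e 1) ^ (n + 1) := by ring
  -- absolute values of the coefficients
  have habs : ∀ j < r, |R.coeff j| ≤ (e 1) ^ (r - j) := by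
    intro j hj
    have h2 : e (r - j) = (-1) ^ (r - j) * R.coeff j := by
      rw [hech]
      congr 2
      omega
    have h3 : |R.coeff j| = e (r - j) := by
      have h4 := hpos (r - j) (by omega)
      rw [← abs_of_nonneg h4, h2, abs_mul, abs_pow, abs_neg, abs_one, one_pow, one_mul]
    rw [h3]
    exact hpow _ (by omega)
  -- the root
  set c : ℤ →+* ℂ := Int.castRingHom ℂ with hc
  set x : ℂ := β - 1 with hx
  have hroot : (R.map c).eval x = 0 := by
    have h5 : (P.map c).eval β = 0 := by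
      have h6 : P.map c ≠ 0 := (hP.map c).ne_zero
      exact (Polynomial.mem_roots h6).1 hβ
    rw [hR, Polynomial.map_comp, Polynomial.eval_comp]
    simp only [Polynomial.map_add, Polynomial.map_X, Polynomial.map_one, Polynomial.eval_add,
      Polynomial.eval_X, Polynomial.eval_one]
    rw [hx, sub_add_cancel]
    exact h5
  have hsum : x ^ r + ∑ j ∈ Finset.range r, ((R.coeff j : ℤ) : ℂ) * x ^ j = 0 := by
    rw [Polynomial.eval_eq_sum_range' (n := r + 1) (by
      rw [hRm.natDegree_map, hRd]; omega), Finset.sum_range_succ] at hroot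
    rw [add_comm]
    have h7 : (R.map c).coeff r = 1 := by
      rw [Polynomial.coeff_map, ← hRd, hRm.coeff_natDegree, map_one]
    rw [h7, one_mul] at hroot
    rw [← hroot]
    congr 1
    refine Finset.sum_congr rfl fun j _ => ?_
    rw [Polynomial.coeff_map, hc, eq_intCast]
  have hle : ‖x‖ ^ r ≤ ∑ j ∈ Finset.range r, ((e 1 : ℤ) : ℝ) ^ (r - j) * ‖x‖ ^ j := by
    have h8 : x ^ r = - ∑ j ∈ Finset.range r, ((R.coeff j : ℤ) : ℂ) * x ^ j :=
      eq_neg_of_add_eq_zero_left hsum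
    calc ‖x‖ ^ r = ‖x ^ r‖ := (norm_pow x r).symm
      _ = ‖∑ j ∈ Finset.range r, ((R.coeff j : ℤ) : ℂ) * x ^ j‖ := by rw [h8, norm_neg]
      _ ≤ ∑ j ∈ Finset.range r, ‖((R.coeff j : ℤ) : ℂ) * x ^ j‖ := norm_sum_le _ _
      _ ≤ ∑ j ∈ Finset.range r, ((e 1 : ℤ) : ℝ) ^ (r - j) * ‖x‖ ^ j := by
        refine Finset.sum_le_sum fun j hj => ?_
        rw [norm_mul, norm_pow]
        refine mul_le_mul_of_nonneg_right ?_ (by positivity)
        rw [Complex.norm_intCast]
        have h9 := habs j (Finset.mem_range.1 hj)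
        exact_mod_cast h9
  by_contra hcon
  have hcon' : 2 * ((e 1 : ℤ) : ℝ) < ‖x‖ := not_le.1 hcon
  have hEr : (0 : ℝ) ≤ ((e 1 : ℤ) : ℝ) := by exact_mod_cast hE
  have hxp : 0 < ‖x‖ := by linarith
  have hle2 : ∑ j ∈ Finset.range r, ((e 1 : ℤ) : ℝ) ^ (r - j) * ‖x‖ ^ j ≤
      ∑ j ∈ Finset.range r, ‖x‖ ^ r * ((1 : ℝ) / 2) ^ (r - j) := by
    refine Finset.sum_le_sum fun j hj => ?_
    have hj' := Finset.mem_range.1 hj
    have h10 : ((e 1 : ℤ) : ℝ) ^ (r - j) ≤ (‖x‖ * (1 / 2)) ^ (r - j) :=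
      pow_le_pow_left₀ hEr (by linarith) _
    calc ((e 1 : ℤ) : ℝ) ^ (r - j) * ‖x‖ ^ j ≤ (‖x‖ * (1 / 2)) ^ (r - j) * ‖x‖ ^ j :=
          mul_le_mul_of_nonneg_right h10 (by positivity)
      _ = ‖x‖ ^ r * ((1 : ℝ) / 2) ^ (r - j) := by
        rw [mul_pow]
        have h11 : ‖x‖ ^ r = ‖x‖ ^ (r - j) * ‖x‖ ^ j := by
          rw [← pow_add]
          congr 1
          omega
        rw [h11]
        ring
  rw [← Finset.mul_sum, geo] at hle2
  have hpr : 0 < ‖x‖ ^ r := pow_pos hxp r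
  have h12 : (0 : ℝ) < (1 / 2) ^ r := by positivity
  nlinarith [mul_pos hpr h12]

end Pool.Agent.N17.CK
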