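import Pool.Agent.N17.CK.Stm

/-!
# Project CK: divisors of a polynomial which splits modulo `p`
-/

set_option autoImplicit false

open Polynomial Filter

namespace Pool.Agent.N17.CK

open Pool.Agent.N17.HC Pool.Agent.N17.HC.FIN

namespace SPL

/-- a monic divisor of a polynomial which splits modulo `p` splits modulo `p` -/
theorem splits {p r : ℕ} [Fact p.Prime] {P Q : ℤ[X]} (hP : P.Monic) (hdvd : Q ∣ P)
    (x : Fin r → ZMod p) (hx : P.map (Int.castRingHom (ZMod p)) = ∏ i, (X - C (x i))) :
    (Q.map (Int.castRingHom (ZMod p))).Splits := by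
  have h1 : (P.map (Int.castRingHom (ZMod p))).Splits := by
    rw [hx]
    exact Splits.prod fun i _ => Splits.X_sub_C _
  exact h1.of_dvd (hP.map _).ne_zero (Polynomial.map_dvd _ hdvd)

theorem natDegree_P3 (a b c : ℤ) : (P3 a b c).natDegree = 3 := by
  unfold P3
  compute_degree!

theorem natDegree_P2 (u v : ℤ) : (P2 u v).natDegree = 2 := by
  unfold P2
  compute_degree!

/-- the factorisation of the reduction -/
theorem factor {p r : ℕ} [Fact p.Prime] {P Q : ℤ[X]} (hP : P.Monic) (hQ : Q.Monic)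
    (hdvd : Q ∣ P) (x : Fin r → ZMod p)
    (hx : P.map (Int.castRingHom (ZMod p)) = ∏ i, (X - C (x i))) :
    ∃ s : Multiset (ZMod p), Multiset.card s = Q.natDegree ∧
      Q.map (Int.castRingHom (ZMod p)) = (s.map fun a => X - C a).prod := by
  have h := splits hP hdvd x hx
  refine ⟨_, ?_, h.eq_prod_roots_of_monic (hQ.map _)⟩
  rw [← h.natDegree_eq_card_roots, hQ.natDegree_map]

/-- comparison of coefficients -/
theorem inj2 {R : Type*} [CommRing R] {u v a b : R}
    (h : X ^ 2 - C u * X + C v = (X - C a) * (X - C b)) : u = a + b ∧ v = a * b := by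
  have e2 : (X - C a) * (X - C b) = X ^ 2 - C (a + b) * X + C (a * b) := by
    simp only [map_add, map_mul]
    ring
  rw [e2] at h
  have h0 := congrArg (fun q : R[X] => q.coeff 0) h
  have h1 := congrArg (fun q : R[X] => q.coeff 1) h
  simp only [coeff_add, coeff_sub, coeff_C_mul, coeff_X_pow, coeff_X_zero, coeff_X_one,
    coeff_C_zero, coeff_C_succ] at h0 h1
  norm_num at h0 h1
  refine ⟨?_, h0⟩
  have h2 := congrArg (fun t : R => -t) h1
  simp only [neg_neg] at h2
  linear_combination h2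

end SPL

open SPL in
theorem t_SPL : S_SPL := by
  intro p r P Q hp hP hQ hdvd ⟨x, hx⟩
  have : Fact p.Prime := ⟨hp⟩
  have : NeZero p := ⟨hp.ne_zero⟩
  obtain ⟨s, hs, hQs⟩ := factor hP hQ hdvd x hx
  refine ⟨fun a b c h => ?_, fun u v h => ?_⟩
  · rw [h, natDegree_P3] at hs
    obtain ⟨y1, y2, y3, rfl⟩ := Multiset.card_eq_three.1 hs
    refine spl3 a b c p ![y1, y2, y3] ?_
    rw [← h, hQs]
    simp [Fin.prod_univ_three, mul_assoc]
  · rw [h, natDegree_P2] at hs
    obtain ⟨y1, y2, rfl⟩ := Multiset.card_eq_two.1 hs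
    rw [h] at hQs
    have e : (P2 u v).map (Int.castRingHom (ZMod p)) =
        X ^ 2 - C (u : ZMod p) * X + C (v : ZMod p) := by
      unfold P2
      simp
    rw [e] at hQs
    simp only [Multiset.insert_eq_cons, Multiset.map_cons, Multiset.map_singleton,
      Multiset.prod_cons, Multiset.prod_singleton] at hQs
    obtain ⟨h1, h0⟩ := inj2 hQs
    refine ⟨((y1 - y2).val : ℤ), ?_⟩
    rw [← ZMod.intCast_zmod_eq_zero_iff_dvd]
    push_cast
    rw [ZMod.natCast_zmod_val, h0, h1]
    ring

end Pool.Agent.N17.CK
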