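import Pool.Agent.N17.HC.FIN

/-!
# Project CK: smooth subvarieties of codimension three with small canonical class, statements
-/

set_option autoImplicit false

open Polynomial Filter

namespace Pool.Agent.N17.CK

open Pool.Agent.N17.HC Pool.Agent.N17.HC.FIN

/-- the Chern classes of `N_X(-1)`: the signed coefficients of `P(T + 1)`, `i ≤ r` -/
noncomputable def chern (r : ℕ) (P : ℤ[X]) (i : ℕ) : ℤ :=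
  (-1) ^ i * (P.comp (X + 1)).coeff (r - i)

/-- the polynomial of degree two -/
noncomputable def P2 {R : Type*} [CommRing R] (u v : R) : R[X] := X ^ 2 - C u * X + C v

/-- **ROOT** -/
def S_ROOT : Prop :=
  ∀ (r : ℕ) (P : ℤ[X]), P.Monic → P.natDegree = r → (∀ i ≤ r, 0 ≤ chern r P i) →
    (∀ i < r, chern r P (i + 1) ≤ chern r P 1 * chern r P i) →
    ∀ β ∈ rootsOf P, ‖β - 1‖ ≤ 2 * ((chern r P 1 : ℤ) : ℝ)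

/-- **BD** -/
def S_BD : Prop :=
  (∀ (a b c : ℤ) (E : ℝ), 0 ≤ E → (∀ β ∈ rootsOf (P3 a b c), ‖β - 1‖ ≤ E) →
    |(a : ℝ)| ≤ 3 * (E + 1) ∧ |(b : ℝ)| ≤ 3 * (E + 1) ^ 2 ∧ |(c : ℝ)| ≤ (E + 1) ^ 3 ∧
      |((disc3 a b c : ℤ) : ℝ)| ≤ 64 * E ^ 6) ∧
  (∀ (u v : ℤ) (E : ℝ), 0 ≤ E → (∀ β ∈ rootsOf (P2 u v), ‖β - 1‖ ≤ E) →
    |(u : ℝ) ^ 2 - 4 * v| ≤ 4 * E ^ 2) ∧
  (∀ (r : ℕ) (P : ℤ[X]) (E : ℝ), P.Monic → P.natDegree = r → 0 ≤ E →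
    (∀ β ∈ rootsOf P, ‖β - 1‖ ≤ E) → |((P.coeff 0 : ℤ) : ℝ)| ≤ (E + 1) ^ r)

/-- **SPL** -/
def S_SPL : Prop :=
  ∀ (p r : ℕ) (P Q : ℤ[X]), p.Prime → P.Monic → Q.Monic → Q ∣ P →
    (∃ x : Fin r → ZMod p, P.map (Int.castRingHom (ZMod p)) = ∏ i, (X - C (x i))) →
    (∀ a b c : ℤ, Q = P3 a b c → Spl3 p a b c) ∧
    (∀ u v : ℤ, Q = P2 u v → ∃ t : ℤ, (p : ℤ) ∣ u ^ 2 - 4 * v - t ^ 2)

/-- **POS** -/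
def S_POS : Prop :=
  ∀ (r : ℕ) (P : ℤ[X]), P.Monic → P.natDegree = r → (∀ i ≤ r, 0 ≤ chern r P i) →
    1 ≤ (-1) ^ r * P.coeff 0 ∧ ∀ a : ℤ, (X - C a) ∣ P → 1 ≤ a

/-- **END** -/
def S_END : Prop :=
  ∀ (r : ℕ) (P : ℤ[X]), P.Monic → P.natDegree = r →
    (∀ Q : ℤ[X], Q.Monic → Irreducible Q → Q ∣ P → ∃ a : ℤ, 1 ≤ a ∧ Q = X - C a) →
    ∃ a : Fin r → ℤ, (∀ i, 1 ≤ a i) ∧ P = ∏ i, (X - C (a i))

end Pool.Agent.N17.CK
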